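import Pool.Agent.Q192.TR.Tree

set_option autoImplicit false

namespace Q192.UCR

open Finset Q192.TR Q192.TR.RT

variable {t a b : RT}

/-- every vertex outside the chosen set has a chosen neighbour of larger colour, and chosen
vertices have positive colour -/
def Good (t : RT) (c : t.V → ℕ) (D : t.V → Bool) (v : t.V) : Prop :=
  (D v = true ∧ c v ≠ 0) ∨ (D v = false ∧ ∃ d, t.G.Adj v d ∧ D d = true ∧ c v < c d)

structure Conf (t : RT) (c : t.V → ℕ) (D : t.V → Bool) : Prop where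
  proper : ∀ u v, t.G.Adj u v → c u ≠ c v
  good : ∀ v, v ≠ t.root → Good t c D v

def cost (t : RT) (c : t.V → ℕ) (D : t.V → Bool) : ℤ := ∑ v, if D v then (c v : ℤ) else 0

/-- root chosen, colour `k` -/
def DD (t : RT) (k : ℕ) (m : ℤ) : Prop := ∃ c D, Conf t c D ∧ c t.root = k ∧ D t.root = true ∧
  cost t c D ≤ m
/-- root not chosen, colour `k`, dominated by a child -/
def MM (t : RT) (k : ℕ) (m : ℤ) : Prop := ∃ c D, Conf t c D ∧ c t.root = k ∧ D t.root = false ∧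
  (∃ d, t.G.Adj t.root d ∧ D d = true ∧ k < c d) ∧ cost t c D ≤ m
/-- root not chosen, colour `k` -/
def UU (t : RT) (k : ℕ) (m : ℤ) : Prop := ∃ c D, Conf t c D ∧ c t.root = k ∧ D t.root = false ∧
  cost t c D ≤ m

theorem UU_of_MM {k : ℕ} {m : ℤ} (h : MM t k m) : UU t k m := by
  obtain ⟨c, D, h1, h2, h3, -, h4⟩ := h
  exact ⟨c, D, h1, h2, h3, h4⟩

theorem cost_glue (c : a.V → ℕ) (D : a.V → Bool) (c' : b.V → ℕ) (D' : b.V → Bool) :
    cost (join a b) (glue c c') (glue D D') = cost a c D + cost b c' D' := by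
  unfold cost
  rw [sum_join]
  rfl

theorem good_inl {c : a.V → ℕ} {D : a.V → Bool} {c' : b.V → ℕ} {D' : b.V → Bool} {x : a.V}
    (h : Good a c D x) : Good (join a b) (glue c c') (glue D D') (inl x) := by
  rcases h with h | ⟨h1, d, h2, h3, h4⟩
  · exact Or.inl h
  · exact Or.inr ⟨h1, inl d, h2, h3, h4⟩

theorem good_inr {c : a.V → ℕ} {D : a.V → Bool} {c' : b.V → ℕ} {D' : b.V → Bool} {x : b.V}
    (h : Good b c' D' x) : Good (join a b) (glue c c') (glue D D') (inr x) := by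
  rcases h with h | ⟨h1, d, h2, h3, h4⟩
  · exact Or.inl h
  · exact Or.inr ⟨h1, inr d, h2, h3, h4⟩

theorem conf_glue {c : a.V → ℕ} {D : a.V → Bool} {c' : b.V → ℕ} {D' : b.V → Bool}
    (h : Conf a c D) (h' : Conf b c' D') (hne : c a.root ≠ c' b.root)
    (hr : Good (join a b) (glue c c') (glue D D') (inr b.root)) :
    Conf (join a b) (glue c c') (glue D D') := by
  refine ⟨?_, ?_⟩
  · intro u v
    refine join_cases (P := fun u => (join a b).G.Adj u v → glue c c' u ≠ glue c c' v)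
      (fun x => ?_) (fun y => ?_) u
    · refine join_cases (P := fun v => (join a b).G.Adj (inl x) v →
        glue c c' (inl x) ≠ glue c c' v) (fun x' => ?_) (fun y' => ?_) v
      · exact h.proper x x'
      · rintro ⟨rfl, rfl⟩
        exact hne
    · refine join_cases (P := fun v => (join a b).G.Adj (inr y) v →
        glue c c' (inr y) ≠ glue c c' v) (fun x' => ?_) (fun y' => ?_) v
      · rintro ⟨rfl, rfl⟩
        exact hne.symm
      · exact h'.proper y y'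
  · intro v
    refine join_cases (P := fun v => v ≠ (join a b).root →
      Good (join a b) (glue c c') (glue D D') v) (fun x => ?_) (fun y => ?_) v
    · intro hx
      exact good_inl (h.good x fun e => hx (by rw [e]; rfl))
    · intro _
      by_cases hy : y = b.root
      · rw [hy]; exact hr
      · exact good_inr (h'.good y hy)

/-- a finished child with colour `k`, cost at most `m` -/
def Fin' (b : RT) (k : ℕ) (m : ℤ) : Prop := (k ≠ 0 ∧ DD b k m) ∨ MM b k m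

theorem fin_data {k : ℕ} {m : ℤ} (h : Fin' b k m) : ∃ c D, Conf b c D ∧ c b.root = k ∧
    Good b c D b.root ∧ cost b c D ≤ m := by
  rcases h with ⟨h0, c, D, h1, h2, h3, h4⟩ | ⟨c, D, h1, h2, h3, ⟨d, h5, h6, h7⟩, h4⟩
  · exact ⟨c, D, h1, h2, Or.inl ⟨h3, h2 ▸ h0⟩, h4⟩
  · exact ⟨c, D, h1, h2, Or.inr ⟨h3, d, h5, h6, h2 ▸ h7⟩, h4⟩

theorem DD_fin {k k' : ℕ} {m m' : ℤ} (h : DD a k m) (h' : Fin' b k' m') (hk : k ≠ k') :
    DD (join a b) k (m + m') := by
  obtain ⟨c, D, h1, h2, h3, h4⟩ := h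
  obtain ⟨c', D', g1, g2, g3, g4⟩ := fin_data h'
  refine ⟨glue c c', glue D D', conf_glue h1 g1 (by rw [h2, g2]; exact hk) (good_inr g3), h2, h3, ?_⟩
  rw [cost_glue]; omega

theorem DD_UU {k k' : ℕ} {m m' : ℤ} (h : DD a k m) (h' : UU b k' m') (hk : k' < k) :
    DD (join a b) k (m + m') := by
  obtain ⟨c, D, h1, h2, h3, h4⟩ := h
  obtain ⟨c', D', g1, g2, g3, g4⟩ := h'
  refine ⟨glue c c', glue D D', conf_glue h1 g1 (by rw [h2, g2]; exact hk.ne') ?_, h2, h3, ?_⟩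
  · refine Or.inr ⟨g3, inl a.root, ⟨rfl, rfl⟩, h3, ?_⟩
    change c' b.root < c a.root
    rw [h2, g2]; exact hk
  · rw [cost_glue]; omega

theorem UU_fin {k k' : ℕ} {m m' : ℤ} (h : UU a k m) (h' : Fin' b k' m') (hk : k ≠ k') :
    UU (join a b) k (m + m') := by
  obtain ⟨c, D, h1, h2, h3, h4⟩ := h
  obtain ⟨c', D', g1, g2, g3, g4⟩ := fin_data h'
  refine ⟨glue c c', glue D D', conf_glue h1 g1 (by rw [h2, g2]; exact hk) (good_inr g3), h2, h3, ?_⟩
  rw [cost_glue]; omega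

theorem MM_fin {k k' : ℕ} {m m' : ℤ} (h : MM a k m) (h' : Fin' b k' m') (hk : k ≠ k') :
    MM (join a b) k (m + m') := by
  obtain ⟨c, D, h1, h2, h3, ⟨d, h5, h6, h7⟩, h4⟩ := h
  obtain ⟨c', D', g1, g2, g3, g4⟩ := fin_data h'
  refine ⟨glue c c', glue D D', conf_glue h1 g1 (by rw [h2, g2]; exact hk) (good_inr g3), h2, h3,
    ⟨inl d, h5, h6, h7⟩, ?_⟩
  rw [cost_glue]; omega

theorem MM_DD {k k' : ℕ} {m m' : ℤ} (h : UU a k m) (h' : DD b k' m') (hk : k < k') :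
    MM (join a b) k (m + m') := by
  obtain ⟨c, D, h1, h2, h3, h4⟩ := h
  obtain ⟨c', D', g1, g2, g3, g4⟩ := h'
  refine ⟨glue c c', glue D D', conf_glue h1 g1 (by rw [h2, g2]; exact hk.ne)
    (Or.inl ⟨g3, ?_⟩), h2, h3, ⟨inr b.root, ⟨rfl, rfl⟩, g3, ?_⟩, ?_⟩
  · change c' b.root ≠ 0
    omega
  · change k < c' b.root
    rw [g2]; exact hk
  · rw [cost_glue]; omega

theorem DD.le {k : ℕ} {m m' : ℤ} (h : DD t k m) (hm : m ≤ m') : DD t k m' := by
  obtain ⟨c, D, h1, h2, h3, h4⟩ := h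
  exact ⟨c, D, h1, h2, h3, h4.trans hm⟩

theorem UU.le {k : ℕ} {m m' : ℤ} (h : UU t k m) (hm : m ≤ m') : UU t k m' := by
  obtain ⟨c, D, h1, h2, h3, h4⟩ := h
  exact ⟨c, D, h1, h2, h3, h4.trans hm⟩

theorem MM.le {k : ℕ} {m m' : ℤ} (h : MM t k m) (hm : m ≤ m') : MM t k m' := by
  obtain ⟨c, D, h1, h2, h3, h5, h4⟩ := h
  exact ⟨c, D, h1, h2, h3, h5, h4.trans hm⟩

/-! ### invariants -/

structure I1 (t : RT) (w : ℤ) (j : ℕ) : Prop where
  d1 : DD t 1 (w - j)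
  d2 : DD t 2 (w + 1 - j)
  u0 : UU t 0 (w - 1)
  u1 : UU t 1 (w + j - 1)
  u2 : UU t 2 (w - 1)
  u3 : UU t 3 (w - 1)
  m0 : 1 ≤ j → MM t 0 (w - 1)

structure I3 (t : RT) (w : ℤ) (j : ℕ) : Prop where
  d1 : DD t 1 (w + 1 - j)
  d2 : DD t 2 (w + 2 - j)
  d3 : DD t 3 (w + 3 - j)
  u0 : UU t 0 w
  u1 : UU t 1 (w + j)
  u2 : UU t 2 w
  u3 : UU t 3 w

structure I0 (t : RT) (w : ℤ) (j : ℕ) : Prop where
  d1 : DD t 1 (w + 1 - j)
  d2 : DD t 2 (w + 1 - j)
  d3 : DD t 3 (w + 2 - j)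
  m0 : MM t 0 (w - 1)
  m1 : MM t 1 (w + j)
  m2 : MM t 2 (w + 1)
  u2 : UU t 2 (w - 1)
  u3 : UU t 3 (w - 1)

structure I2 (t : RT) (w : ℤ) : Prop where
  d1 : DD t 1 (w - 1)
  d2 : DD t 2 w
  d3 : DD t 3 (w + 1)

theorem I1.fin1 {w : ℤ} {j : ℕ} (h : I1 b w j) : Fin' b 1 w :=
  Or.inl ⟨one_ne_zero, h.d1.le (by omega)⟩
theorem I1.fin2 {w : ℤ} {j : ℕ} (h : I1 b w j) : Fin' b 2 (w + 1) :=
  Or.inl ⟨two_ne_zero, h.d2.le (by omega)⟩
theorem I0.fin0 {w : ℤ} {j : ℕ} (h : I0 b w j) : Fin' b 0 (w - 1) := Or.inr h.m0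
theorem I0.fin1 {w : ℤ} {j : ℕ} (h : I0 b w j) : Fin' b 1 w := by
  rcases Nat.eq_zero_or_pos j with hj | hj
  · exact Or.inr (h.m1.le (by omega))
  · exact Or.inl ⟨one_ne_zero, h.d1.le (by omega)⟩
theorem I2.fin1 {w : ℤ} (h : I2 b w) : Fin' b 1 (w - 1) := Or.inl ⟨one_ne_zero, h.d1⟩
theorem I2.fin2 {w : ℤ} (h : I2 b w) : Fin' b 2 w := Or.inl ⟨two_ne_zero, h.d2⟩

section joins
variable {w w' : ℤ} {j j' : ℕ}

theorem I1_I1 (h : I1 a w j) (h' : I1 b w' j') : I1 (join a b) (w + w') (j + 1) where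
  d1 := (DD_UU h.d1 h'.u0 (by norm_num)).le (by omega)
  d2 := (DD_UU h.d2 h'.u0 (by norm_num)).le (by omega)
  u0 := (UU_fin h.u0 h'.fin1 (by norm_num)).le (by omega)
  u1 := (UU_fin h.u1 h'.fin2 (by norm_num)).le (by omega)
  u2 := (UU_fin h.u2 h'.fin1 (by norm_num)).le (by omega)
  u3 := (UU_fin h.u3 h'.fin1 (by norm_num)).le (by omega)
  m0 := fun _ => (MM_DD h.u0 h'.d1 (by norm_num)).le (by omega)

theorem I1_I0 (h : I1 a w j) (h' : I0 b w' j') : I1 (join a b) (w + w') j where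
  d1 := (DD_fin h.d1 h'.fin0 (by norm_num)).le (by omega)
  d2 := (DD_fin h.d2 h'.fin0 (by norm_num)).le (by omega)
  u0 := (UU_fin h.u0 h'.fin1 (by norm_num)).le (by omega)
  u1 := (UU_fin h.u1 h'.fin0 (by norm_num)).le (by omega)
  u2 := (UU_fin h.u2 h'.fin1 (by norm_num)).le (by omega)
  u3 := (UU_fin h.u3 h'.fin1 (by norm_num)).le (by omega)
  m0 := fun hj => (MM_fin (h.m0 hj) h'.fin1 (by norm_num)).le (by omega)

theorem I1_I2 (h : I1 a w j) (h' : I2 b w') : I1 (join a b) (w + w') j where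
  d1 := (DD_fin h.d1 h'.fin2 (by norm_num)).le (by omega)
  d2 := (DD_fin h.d2 h'.fin1 (by norm_num)).le (by omega)
  u0 := (UU_fin h.u0 h'.fin1 (by norm_num)).le (by omega)
  u1 := (UU_fin h.u1 h'.fin2 (by norm_num)).le (by omega)
  u2 := (UU_fin h.u2 h'.fin1 (by norm_num)).le (by omega)
  u3 := (UU_fin h.u3 h'.fin1 (by norm_num)).le (by omega)
  m0 := fun _ => (MM_DD h.u0 h'.d1 (by norm_num)).le (by omega)

theorem I3_I1 (h : I3 a w j) (h' : I1 b w' j') : I3 (join a b) (w + w') (j + 1) where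
  d1 := (DD_UU h.d1 h'.u0 (by norm_num)).le (by omega)
  d2 := (DD_UU h.d2 h'.u0 (by norm_num)).le (by omega)
  d3 := (DD_UU h.d3 h'.u0 (by norm_num)).le (by omega)
  u0 := (UU_fin h.u0 h'.fin1 (by norm_num)).le (by omega)
  u1 := (UU_fin h.u1 h'.fin2 (by norm_num)).le (by omega)
  u2 := (UU_fin h.u2 h'.fin1 (by norm_num)).le (by omega)
  u3 := (UU_fin h.u3 h'.fin1 (by norm_num)).le (by omega)

theorem I3_I0 (h : I3 a w j) (h' : I0 b w' j') : I3 (join a b) (w + w') j where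
  d1 := (DD_fin h.d1 h'.fin0 (by norm_num)).le (by omega)
  d2 := (DD_fin h.d2 h'.fin0 (by norm_num)).le (by omega)
  d3 := (DD_fin h.d3 h'.fin0 (by norm_num)).le (by omega)
  u0 := (UU_fin h.u0 h'.fin1 (by norm_num)).le (by omega)
  u1 := (UU_fin h.u1 h'.fin0 (by norm_num)).le (by omega)
  u2 := (UU_fin h.u2 h'.fin1 (by norm_num)).le (by omega)
  u3 := (UU_fin h.u3 h'.fin1 (by norm_num)).le (by omega)

theorem I3_I2 (h : I3 a w j) (h' : I2 b w') : I0 (join a b) (w + w') j where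
  d1 := (DD_fin h.d1 h'.fin2 (by norm_num)).le (by omega)
  d2 := (DD_fin h.d2 h'.fin1 (by norm_num)).le (by omega)
  d3 := (DD_fin h.d3 h'.fin1 (by norm_num)).le (by omega)
  m0 := (MM_DD h.u0 h'.d1 (by norm_num)).le (by omega)
  m1 := (MM_DD h.u1 h'.d2 (by norm_num)).le (by omega)
  m2 := (MM_DD h.u2 h'.d3 (by norm_num)).le (by omega)
  u2 := (UU_fin h.u2 h'.fin1 (by norm_num)).le (by omega)
  u3 := (UU_fin h.u3 h'.fin1 (by norm_num)).le (by omega)

theorem I0_I1 (h : I0 a w j) (h' : I1 b w' j') : I0 (join a b) (w + w') (j + 1) where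
  d1 := (DD_UU h.d1 h'.u0 (by norm_num)).le (by omega)
  d2 := (DD_UU h.d2 h'.u0 (by norm_num)).le (by omega)
  d3 := (DD_UU h.d3 h'.u0 (by norm_num)).le (by omega)
  m0 := (MM_fin h.m0 h'.fin1 (by norm_num)).le (by omega)
  m1 := (MM_fin h.m1 h'.fin2 (by norm_num)).le (by omega)
  m2 := (MM_fin h.m2 h'.fin1 (by norm_num)).le (by omega)
  u2 := (UU_fin h.u2 h'.fin1 (by norm_num)).le (by omega)
  u3 := (UU_fin h.u3 h'.fin1 (by norm_num)).le (by omega)

theorem I0_I0 (h : I0 a w j) (h' : I0 b w' j') : I0 (join a b) (w + w') j where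
  d1 := (DD_fin h.d1 h'.fin0 (by norm_num)).le (by omega)
  d2 := (DD_fin h.d2 h'.fin0 (by norm_num)).le (by omega)
  d3 := (DD_fin h.d3 h'.fin0 (by norm_num)).le (by omega)
  m0 := (MM_fin h.m0 h'.fin1 (by norm_num)).le (by omega)
  m1 := (MM_fin h.m1 h'.fin0 (by norm_num)).le (by omega)
  m2 := (MM_fin h.m2 h'.fin1 (by norm_num)).le (by omega)
  u2 := (UU_fin h.u2 h'.fin1 (by norm_num)).le (by omega)
  u3 := (UU_fin h.u3 h'.fin1 (by norm_num)).le (by omega)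

theorem I0_I2 (h : I0 a w j) (h' : I2 b w') : I0 (join a b) (w + w') j where
  d1 := (DD_fin h.d1 h'.fin2 (by norm_num)).le (by omega)
  d2 := (DD_fin h.d2 h'.fin1 (by norm_num)).le (by omega)
  d3 := (DD_fin h.d3 h'.fin1 (by norm_num)).le (by omega)
  m0 := (MM_fin h.m0 h'.fin1 (by norm_num)).le (by omega)
  m1 := (MM_fin h.m1 h'.fin2 (by norm_num)).le (by omega)
  m2 := (MM_fin h.m2 h'.fin1 (by norm_num)).le (by omega)
  u2 := (UU_fin h.u2 h'.fin1 (by norm_num)).le (by omega)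
  u3 := (UU_fin h.u3 h'.fin1 (by norm_num)).le (by omega)

theorem I2_U (h : I2 a w) (h' : UU b 0 w') : I2 (join a b) (w + w') where
  d1 := (DD_UU h.d1 h' (by norm_num)).le (by omega)
  d2 := (DD_UU h.d2 h' (by norm_num)).le (by omega)
  d3 := (DD_UU h.d3 h' (by norm_num)).le (by omega)

theorem I2_I2 (h : I2 a w) (h' : I2 b w') : I2 (join a b) (w + w') where
  d1 := (DD_fin h.d1 h'.fin2 (by norm_num)).le (by omega)
  d2 := (DD_fin h.d2 h'.fin1 (by norm_num)).le (by omega)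
  d3 := (DD_fin h.d3 h'.fin1 (by norm_num)).le (by omega)

end joins

theorem conf_leaf (c : leaf.V → ℕ) (D : leaf.V → Bool) : Conf leaf c D :=
  ⟨fun u v h => absurd h (leaf_adj u v), fun v hv => absurd (leaf_eq v) hv⟩

theorem DD_leaf (k : ℕ) : DD leaf k k := by
  refine ⟨fun _ => k, fun _ => true, conf_leaf _ _, rfl, rfl, ?_⟩
  unfold cost; rw [sum_leaf]; simp

theorem UU_leaf (k : ℕ) : UU leaf k 0 := by
  refine ⟨fun _ => k, fun _ => false, conf_leaf _ _, rfl, rfl, ?_⟩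
  unfold cost; rw [sum_leaf]; simp

theorem I1_leaf : I1 leaf 1 0 where
  d1 := DD_leaf 1
  d2 := DD_leaf 2
  u0 := UU_leaf 0
  u1 := UU_leaf 1
  u2 := UU_leaf 2
  u3 := UU_leaf 3
  m0 := fun h => by omega

theorem I3_leaf : I3 leaf 0 0 where
  d1 := DD_leaf 1
  d2 := DD_leaf 2
  d3 := DD_leaf 3
  u0 := UU_leaf 0
  u1 := UU_leaf 1
  u2 := UU_leaf 2
  u3 := UU_leaf 3

theorem I2_leaf : I2 leaf 2 where
  d1 := DD_leaf 1
  d2 := DD_leaf 2
  d3 := DD_leaf 3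

/-- partial Roman domination: the root need not be dominated -/
structure RP (t : RT) (f : t.V → ℕ) : Prop where
  le_two : ∀ v, f v ≤ 2
  dom : ∀ u, u ≠ t.root → f u = 0 → ∃ v, t.G.Adj u v ∧ f v = 2

def rw' (t : RT) (f : t.V → ℕ) : ℤ := ∑ v, (f v : ℤ)

structure Inv (t : RT) (f : t.V → ℕ) : Prop where
  one : f t.root = 1 → ∃ j, I1 t (rw' t f) j
  two : f t.root = 2 → I2 t (rw' t f)
  zero : f t.root = 0 → (∃ v, t.G.Adj t.root v ∧ f v = 2) → ∃ j, I0 t (rw' t f) j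
  three : f t.root = 0 → (¬ ∃ v, t.G.Adj t.root v ∧ f v = 2) → ∃ j, I3 t (rw' t f) j

theorem rw_join (f : (join a b).V → ℕ) :
    rw' (join a b) f = rw' a (fun x => f (inl x)) + rw' b (fun y => f (inr y)) := sum_join _

theorem RP.inl {f : (join a b).V → ℕ} (h : RP (join a b) f) : RP a (fun x => f (inl x)) := by
  refine ⟨fun v => h.le_two _, fun u hu h0 => ?_⟩
  obtain ⟨v, hv⟩ := h.dom (RT.inl u) (fun e => hu ((inl_inj _ _).1 e)) h0
  revert hv
  refine join_cases (P := fun v => ((join a b).G.Adj (RT.inl u) v ∧ f v = 2) →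
    ∃ v, a.G.Adj u v ∧ f (RT.inl v) = 2) (fun x => ?_) (fun y => ?_) v
  · intro hv; exact ⟨x, hv⟩
  · intro hv; exact absurd ((join_inl_inr _ _).1 hv.1).1 hu

theorem RP.inr {f : (join a b).V → ℕ} (h : RP (join a b) f) : RP b (fun x => f (inr x)) := by
  refine ⟨fun v => h.le_two _, fun u hu h0 => ?_⟩
  obtain ⟨v, hv⟩ := h.dom (RT.inr u) (inr_ne_inl _ _) h0
  revert hv
  refine join_cases (P := fun v => ((join a b).G.Adj (RT.inr u) v ∧ f v = 2) →
    ∃ v, b.G.Adj u v ∧ f (RT.inr v) = 2) (fun x => ?_) (fun y => ?_) v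
  · intro hv; exact absurd ((join_inr_inl _ _).1 hv.1).2 hu
  · intro hv; exact ⟨y, hv⟩

theorem RP.root {f : (join a b).V → ℕ} (h : RP (join a b) f) (h0 : f (RT.inr b.root) = 0) :
    (∃ v, b.G.Adj b.root v ∧ f (RT.inr v) = 2) ∨ f (RT.inl a.root) = 2 := by
  obtain ⟨v, hv⟩ := h.dom (RT.inr b.root) (inr_ne_inl _ _) h0
  revert hv
  refine join_cases (P := fun v => ((join a b).G.Adj (RT.inr b.root) v ∧ f v = 2) →
    (∃ v, b.G.Adj b.root v ∧ f (RT.inr v) = 2) ∨ f (RT.inl a.root) = 2) (fun x => ?_)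
    (fun y => ?_) v
  · intro hv
    have := ((join_inr_inl _ _).1 hv.1).1
    right; rw [← this]; exact hv.2
  · intro hv; exact Or.inl ⟨y, hv⟩

theorem root_nbr (f : (join a b).V → ℕ) : (∃ v, (join a b).G.Adj (join a b).root v ∧ f v = 2) ↔
    (∃ v, a.G.Adj a.root v ∧ f (RT.inl v) = 2) ∨ f (RT.inr b.root) = 2 := by
  constructor
  · rintro ⟨v, hv⟩
    revert hv
    refine join_cases (P := fun v => ((join a b).G.Adj (join a b).root v ∧ f v = 2) →
      (∃ v, a.G.Adj a.root v ∧ f (RT.inl v) = 2) ∨ f (RT.inr b.root) = 2) (fun x => ?_)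
      (fun y => ?_) v
    · intro hv; exact Or.inl ⟨x, hv⟩
    · intro hv
      have h2 : y = b.root := ((join_inl_inr _ _).1 hv.1).2
      subst h2
      exact Or.inr hv.2
  · rintro (⟨v, hv⟩ | h)
    · exact ⟨RT.inl v, hv⟩
    · exact ⟨RT.inr b.root, ⟨rfl, rfl⟩, h⟩

theorem inv_all : ∀ (t : RT) (f : t.V → ℕ), RP t f → Inv t f := by
  intro t
  induction t with
  | leaf =>
    intro f _
    have hw : rw' leaf f = f leaf.root := sum_leaf _
    refine ⟨fun h => ⟨0, ?_⟩, fun h => ?_, fun _ h => ?_, fun h _ => ⟨0, ?_⟩⟩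
    · rw [hw, h]; exact I1_leaf
    · rw [hw, h]; exact I2_leaf
    · obtain ⟨v, hv, _⟩ := h; exact absurd hv (leaf_adj _ _)
    · rw [hw, h]; exact I3_leaf
  | join a b iha ihb =>
    intro f hf
    have ia := iha _ hf.inl
    have ib := ihb _ hf.inr
    have hroot := hf.root
    have hle : f (RT.inr b.root) ≤ 2 := hf.le_two _
    -- classify the child
    have child : (∃ j, I1 b (rw' b fun y => f (RT.inr y)) j ∧ f (RT.inr b.root) = 1) ∨
        (I2 b (rw' b fun y => f (RT.inr y)) ∧ f (RT.inr b.root) = 2) ∨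
        (∃ j, I0 b (rw' b fun y => f (RT.inr y)) j ∧ f (RT.inr b.root) = 0) ∨
        (∃ j, I3 b (rw' b fun y => f (RT.inr y)) j ∧ f (RT.inr b.root) = 0 ∧
          f (RT.inl a.root) = 2) := by
      have h012 : f (RT.inr b.root) = 0 ∨ f (RT.inr b.root) = 1 ∨ f (RT.inr b.root) = 2 := by omega
      rcases h012 with h | h | h
      · by_cases hn : ∃ v, b.G.Adj b.root v ∧ f (RT.inr v) = 2
        · obtain ⟨j, hj⟩ := ib.zero h hn
          exact Or.inr (Or.inr (Or.inl ⟨j, hj, h⟩))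
        · obtain ⟨j, hj⟩ := ib.three h hn
          exact Or.inr (Or.inr (Or.inr ⟨j, hj, h, (hroot h).resolve_left hn⟩))
      · obtain ⟨j, hj⟩ := ib.one h
        exact Or.inl ⟨j, hj, h⟩
      · exact Or.inr (Or.inl ⟨ib.two h, h⟩)
    refine ⟨fun h => ?_, fun h => ?_, fun h hn => ?_, fun h hn => ?_⟩
    · rw [rw_join]
      obtain ⟨j, hj⟩ := ia.one h
      have h' : f (RT.inl a.root) = 1 := h
      rcases child with ⟨j', hb, _⟩ | ⟨hb, _⟩ | ⟨j', hb, _⟩ | ⟨j', hb, _, h2⟩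
      · exact ⟨_, I1_I1 hj hb⟩
      · exact ⟨_, I1_I2 hj hb⟩
      · exact ⟨_, I1_I0 hj hb⟩
      · omega
    · rw [rw_join]
      have ha := ia.two h
      rcases child with ⟨j', hb, _⟩ | ⟨hb, _⟩ | ⟨j', hb, _⟩ | ⟨j', hb, _, h2⟩
      · exact I2_U ha (hb.u0.le (by omega))
      · exact I2_I2 ha hb
      · exact I2_U ha ((UU_of_MM hb.m0).le (by omega))
      · exact I2_U ha hb.u0
    · rw [rw_join]
      have h' : f (RT.inl a.root) = 0 := h
      rw [root_nbr] at hn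
      by_cases ha : ∃ v, a.G.Adj a.root v ∧ f (RT.inl v) = 2
      · obtain ⟨j, hj⟩ := ia.zero h ha
        rcases child with ⟨j', hb, _⟩ | ⟨hb, _⟩ | ⟨j', hb, _⟩ | ⟨j', hb, _, h2⟩
        · exact ⟨_, I0_I1 hj hb⟩
        · exact ⟨_, I0_I2 hj hb⟩
        · exact ⟨_, I0_I0 hj hb⟩
        · omega
      · obtain ⟨j, hj⟩ := ia.three h ha
        have h2 := hn.resolve_left ha
        rcases child with ⟨j', hb, h3⟩ | ⟨hb, _⟩ | ⟨j', hb, h3⟩ | ⟨j', hb, h3, _⟩
        · omega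
        · exact ⟨_, I3_I2 hj hb⟩
        · omega
        · omega
    · rw [rw_join]
      have h' : f (RT.inl a.root) = 0 := h
      rw [root_nbr] at hn
      have hna : ¬ ∃ v, a.G.Adj a.root v ∧ f (RT.inl v) = 2 := fun h => hn (Or.inl h)
      have hnb : ¬ f (RT.inr b.root) = 2 := fun h => hn (Or.inr h)
      obtain ⟨j, hj⟩ := ia.three h hna
      rcases child with ⟨j', hb, h3⟩ | ⟨hb, h3⟩ | ⟨j', hb, h3⟩ | ⟨j', hb, _, h2⟩
      · exact ⟨_, I3_I1 hj hb⟩
      · omega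
      · exact ⟨_, I3_I0 hj hb⟩
      · omega

end Q192.UCR
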