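import Mathlib

set_option autoImplicit false

namespace Q192.UCR

variable {V : Type*} [Fintype V]

/-- `c` is a proper colouring with nonnegative integers. -/
def IsColoring (G : SimpleGraph V) (c : V → ℕ) : Prop := ∀ u v, G.Adj u v → c u ≠ c v

/-- `D` is an up-color dominating `c`-set: every vertex outside `D` has a neighbour in `D` of a
larger colour and no vertex of `D` has colour `0`. -/
structure IsUpColorDominating (G : SimpleGraph V) (c : V → ℕ) (D : Finset V) : Prop where
  dominates : ∀ v, v ∉ D → ∃ d ∈ D, G.Adj v d ∧ c v < c d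
  pos : ∀ d ∈ D, c d ≠ 0

/-- The up-color domination weight: the least weight `∑ d ∈ D, c d` over all colourings `c` and
all up-color dominating `c`-sets `D`. -/
noncomputable def upColorWeight (G : SimpleGraph V) : ℕ :=
  sInf {w | ∃ c : V → ℕ, IsColoring G c ∧ ∃ D : Finset V, IsUpColorDominating G c D ∧
    w = ∑ d ∈ D, c d}

/-- Roman dominating functions. -/
structure IsRoman (G : SimpleGraph V) (f : V → ℕ) : Prop where
  le_two : ∀ v, f v ≤ 2
  dominates : ∀ u, f u = 0 → ∃ v, G.Adj u v ∧ f v = 2

/-- The Roman domination number. -/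
noncomputable def romanNumber (G : SimpleGraph V) : ℕ :=
  sInf {w | ∃ f : V → ℕ, IsRoman G f ∧ w = ∑ v, f v}

end Q192.UCR
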