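import Pool.Agent.Q192.UCR.DP
import Pool.Agent.Q192.UCR.Defs

set_option autoImplicit false

namespace Q192.UCR

open Finset Q192.TR Q192.TR.RT

variable {t : RT}

/-- A finished tree configuration gives an up-color dominating set. -/
theorem omega_le_of {c : t.V → ℕ} {D : t.V → Bool} (h : Conf t c D) (hr : Good t c D t.root)
    {V : Type} [Fintype V] {G : SimpleGraph V} (e : G ≃g t.G) {m : ℤ} (hm : cost t c D ≤ m) :
    (upColorWeight G : ℤ) ≤ m := by
  classical
  have hg : ∀ v, Good t c D v := by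
    intro v
    by_cases hv : v = t.root
    · rw [hv]; exact hr
    · exact h.good v hv
  refine le_trans ?_ hm
  have h1 : cost t c D = ((∑ d ∈ univ.filter (fun v => D (e v) = true), c (e d) : ℕ) : ℤ) := by
    rw [Finset.sum_filter]
    push_cast
    unfold cost
    refine (Fintype.sum_equiv e.toEquiv _ _ fun v => ?_).symm
    change (if D (e v) = true then (c (e v) : ℤ) else 0) = if D (e v) = true then (c (e v) : ℤ) else 0
    rfl
  rw [h1]
  refine Nat.cast_le.2 (Nat.sInf_le ?_)
  refine ⟨fun v => c (e v), ?_, univ.filter (fun v => D (e v) = true), ⟨?_, ?_⟩, rfl⟩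
  · intro u v huv
    exact h.proper _ _ (e.map_adj_iff.2 huv)
  · intro v hv
    have hv' : D (e v) = false := by
      simpa using hv
    rcases hg (e v) with ⟨h2, _⟩ | ⟨_, d, h3, h4, h5⟩
    · rw [hv'] at h2; exact absurd h2 (by simp)
    · refine ⟨e.symm d, ?_, ?_, ?_⟩
      · simp [h4]
      · rw [← e.map_adj_iff]
        simpa using h3
      · simpa using h5
  · intro d hd
    have hd' : D (e d) = true := by simpa using hd
    rcases hg (e d) with ⟨_, h2⟩ | ⟨h2, _⟩
    · exact h2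
    · rw [hd'] at h2; exact absurd h2 (by simp)

theorem omega_of_DD {k : ℕ} {m : ℤ} (hk : k ≠ 0) (h : DD t k m) {V : Type} [Fintype V]
    {G : SimpleGraph V} (e : G ≃g t.G) : (upColorWeight G : ℤ) ≤ m := by
  obtain ⟨c, D, h1, h2, h3, h4⟩ := h
  exact omega_le_of h1 (Or.inl ⟨h3, h2 ▸ hk⟩) e h4

theorem omega_of_MM {k : ℕ} {m : ℤ} (h : MM t k m) {V : Type} [Fintype V]
    {G : SimpleGraph V} (e : G ≃g t.G) : (upColorWeight G : ℤ) ≤ m := by
  obtain ⟨c, D, h1, h2, h3, ⟨d, h5, h6, h7⟩, h4⟩ := h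
  exact omega_le_of h1 (Or.inr ⟨h3, d, h5, h6, h2 ▸ h7⟩) e h4

section
variable {V : Type} [Fintype V] {G : SimpleGraph V}

omit [Fintype V] in
theorem RP_of {f : V → ℕ} (hf : IsRoman G f) (e : G ≃g t.G) : RP t (fun x => f (e.symm x)) := by
  refine ⟨fun v => hf.le_two _, fun u _ h0 => ?_⟩
  obtain ⟨v, h1, h2⟩ := hf.dominates _ h0
  refine ⟨e v, ?_, ?_⟩
  · have := e.map_adj_iff.2 h1
    simpa using this
  · simpa using h2

theorem rw_of (f : V → ℕ) (e : G ≃g t.G) : rw' t (fun x => f (e.symm x)) = ((∑ v, f v : ℕ) : ℤ) := by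
  unfold rw'
  push_cast
  refine (Fintype.sum_equiv e.toEquiv _ _ fun v => ?_).symm
  change (f v : ℤ) = (f (e.symm (e v)) : ℤ)
  simp

/-- one vertex of value two: one less -/
theorem bound_two (hG : G.IsTree) {f : V → ℕ} (hf : IsRoman G f) {r : V} (hr : f r = 2) :
    (upColorWeight G : ℤ) ≤ ((∑ v, f v : ℕ) : ℤ) - 1 := by
  obtain ⟨t, e, he⟩ := exists_iso hG r
  have h1 := inv_all t _ (RP_of hf e)
  have h2 := h1.two (by rw [← he]; simpa using hr)
  rw [rw_of] at h2
  exact omega_of_DD one_ne_zero h2.d1 e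

omit [Fintype V] in
theorem all_one {f : V → ℕ} (hf : IsRoman G f) (h2 : ∀ v, f v ≠ 2) (v : V) : f v = 1 := by
  have h := hf.le_two v
  have h3 := h2 v
  have h4 : f v ≠ 0 := by
    intro h0
    obtain ⟨w, _, hw⟩ := hf.dominates v h0
    exact h2 w hw
  omega

theorem bound_one (hG : G.IsTree) {f : V → ℕ} (hf : IsRoman G f) (h2 : ∀ v, f v ≠ 2) :
    (upColorWeight G : ℤ) ≤ ((∑ v, f v : ℕ) : ℤ) ∧ (2 ≤ Fintype.card V →
      (upColorWeight G : ℤ) ≤ ((∑ v, f v : ℕ) : ℤ) - 1) := by
  obtain ⟨r⟩ := hG.1.nonempty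
  obtain ⟨t, e, he⟩ := exists_iso hG r
  have hone := all_one hf h2
  rw [← rw_of f e]
  have hcard : Fintype.card V = Fintype.card t.V := Fintype.card_congr e.toEquiv
  have h1 := inv_all t _ (RP_of hf e)
  constructor
  · obtain ⟨j, hj⟩ := h1.one (hone _)
    exact omega_of_DD one_ne_zero (hj.d1.le (by omega)) e
  · intro hc
    rw [hcard] at hc
    cases t with
    | leaf => rw [card_leaf] at hc; omega
    | join a b =>
      have hRP := RP_of hf e
      obtain ⟨j, hj⟩ := (inv_all a _ hRP.inl).one (hone _)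
      obtain ⟨j', hj'⟩ := (inv_all b _ hRP.inr).one (hone _)
      have h5 := I1_I1 hj hj'
      rw [rw_join]
      exact omega_of_MM (h5.m0 (by omega)) e

theorem main (hG : G.IsTree) : upColorWeight G ≤ romanNumber G ∧
    (2 ≤ Fintype.card V → upColorWeight G < romanNumber G) := by
  have hne : {w | ∃ f : V → ℕ, IsRoman G f ∧ w = ∑ v, f v}.Nonempty :=
    ⟨_, fun _ => 1, ⟨fun _ => by norm_num, fun _ h => by simp at h⟩, rfl⟩
  obtain ⟨f, hf, hw⟩ := Nat.sInf_mem hne
  have hw' : romanNumber G = ∑ v, f v := hw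
  rw [hw']
  by_cases h : ∃ r, f r = 2
  · obtain ⟨r, hr⟩ := h
    have := bound_two hG hf hr
    constructor
    · omega
    · intro _; omega
  · push Not at h
    have := bound_one hG hf h
    constructor
    · omega
    · intro hc
      have := this.2 hc
      omega

/-- The up-color domination weight is attained. -/
theorem attained (G : SimpleGraph V) : ∃ (c : V → ℕ) (D : Finset V), IsColoring G c ∧
    IsUpColorDominating G c D ∧ ∑ d ∈ D, c d = upColorWeight G := by
  have hne : {w | ∃ c : V → ℕ, IsColoring G c ∧ ∃ D : Finset V, IsUpColorDominating G c D ∧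
      w = ∑ d ∈ D, c d}.Nonempty := by
    refine ⟨_, fun v => (Fintype.equivFin V v : ℕ) + 1, ?_, univ, ⟨?_, ?_⟩, rfl⟩
    · intro u v huv h
      have h1 : (Fintype.equivFin V u : ℕ) = (Fintype.equivFin V v : ℕ) := by
        simpa using h
      have h2 : u = v := (Fintype.equivFin V).injective (Fin.ext h1)
      exact G.ne_of_adj huv h2
    · intro v hv; exact absurd (Finset.mem_univ v) hv
    · intro d _; exact Nat.succ_ne_zero _
  obtain ⟨c, h1, D, h2, h3⟩ := Nat.sInf_mem hne
  exact ⟨c, D, h1, h2, h3.symm⟩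

end

end Q192.UCR
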